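import Mathlib
import Pool.Agent.U916.KF.Spec

set_option autoImplicit false

/-!
# Generalized Wagstaff numbers with exactly `k` prime factors

For real `α > 1`, `β > 0` and a prime `p` let `W α β p` be the `p`-rough part (the product, with
multiplicity, of the prime factors larger than `p`) of `⌊β α ^ p⌋ + 1`, and let `N k α β n` be the
number of primes `p ≤ n` for which `W α β p` has exactly `k` prime factors, counted with
multiplicity.  For every integer `b ≥ 2` the point `(b, 1 / (b + 1))` gives the numbers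
`(b ^ p + 1) / (b + 1)`.

We prove that for Lebesgue almost every pair `(α, β)` with `α > 1`, `β > 0`, for all `k ≥ 1` at
once, `N k α β n ~ e ^ γ (log n) ^ k / (k! log α)`.
-/

namespace Pool.Agent.Results.MP_ce8d0c_nt.KPrimeFactors

open Filter Topology MeasureTheory
open ArithmeticFunction (cardFactors)

/-- The product, with multiplicity, of the prime factors of `m` that are larger than `p`. -/
def roughPart (p m : ℕ) : ℕ := (m.primeFactorsList.filter (fun r => p < r)).prod

/-- The `p`-rough part of `⌊β α ^ p⌋ + 1`. -/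
noncomputable def W (α β : ℝ) (p : ℕ) : ℕ := roughPart p (⌊β * α ^ p⌋₊ + 1)

/-- The number of primes `p ≤ n` for which `W α β p` has exactly `k` prime factors, counted with
multiplicity. -/
noncomputable def N (k : ℕ) (α β : ℝ) (n : ℕ) : ℕ :=
  ((Finset.range (n + 1)).filter (fun p => p.Prime ∧ cardFactors (W α β p) = k)).card

/-- The special points. -/
lemma special {b : ℕ} (hb : 2 ≤ b) {p : ℕ} (hp : p.Prime) (hp2 : p ≠ 2) (hpd : ¬ p ∣ b + 1) :
    W b (1 / ((b : ℝ) + 1)) p * (b + 1) = b ^ p + 1 := by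
  have hodd : Odd p := hp.odd_of_ne_two hp2
  obtain ⟨M, hM⟩ : b + 1 ∣ b ^ p + 1 := by
    have := hodd.nat_add_dvd_pow_add_pow b 1
    rwa [one_pow] at this
  have hMr : ((M : ℝ)) * (b + 1) = (b : ℝ) ^ p + 1 := by
    have : ((b : ℝ) ^ p + 1) = (((b ^ p + 1 : ℕ)) : ℝ) := by push_cast; ring
    rw [this, hM]
    push_cast; ring
  have hb0 : (0 : ℝ) < (b : ℝ) + 1 := by positivity
  have hb2 : (2 : ℝ) ≤ b := by exact_mod_cast hb
  have hM0 : 1 ≤ M := by
    rcases Nat.eq_zero_or_pos M with h | h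
    · rw [h] at hM
      simp at hM
    · exact h
  have hfl : ⌊1 / ((b : ℝ) + 1) * (b : ℝ) ^ p⌋₊ + 1 = M := by
    have h0 : ⌊1 / ((b : ℝ) + 1) * (b : ℝ) ^ p⌋₊ = M - 1 := by
      rw [Nat.floor_eq_iff (by positivity), Nat.cast_sub hM0, Nat.cast_one]
      have e : 1 / ((b : ℝ) + 1) * (b : ℝ) ^ p = M - 1 / ((b : ℝ) + 1) := by
        field_simp
        linarith
      rw [e]
      have h1 : 1 / ((b : ℝ) + 1) < 1 := by
        rw [div_lt_one hb0]; linarith
      have h2 : 0 < 1 / ((b : ℝ) + 1) := by positivity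
      constructor <;> linarith
    omega
  have hr := Pool.Agent.H447R2.ML.rough_quot (a := (b : ℤ)) (b := -1)
    (IsCoprime.neg_right isCoprime_one_right) (by omega) (by omega) hp
    (by
      intro h
      apply hpd
      have : ((p : ℕ) : ℤ) ∣ ((b + 1 : ℕ) : ℤ) := by push_cast; simpa using h
      exact_mod_cast this) (x := (M : ℝ)) (by
        push_cast
        rw [hodd.neg_one_pow]
        have hne : (b : ℝ) - -1 ≠ 0 := by linarith
        field_simp
        linarith)
  rw [Nat.floor_natCast] at hr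
  have hgeom : (∑ i ∈ Finset.range p, (b : ℤ) ^ i * (-1) ^ (p - 1 - i)) * ((b : ℤ) - -1) =
      (b : ℤ) ^ p - (-1) ^ p := (Commute.all (b : ℤ) (-1)).geom_sum₂_mul p
  rw [← hr, hodd.neg_one_pow] at hgeom
  unfold W
  rw [hfl]
  have h4 : ((roughPart p M : ℕ) : ℤ) * ((b : ℤ) + 1) = (b : ℤ) ^ p + 1 := by
    have h5 : (roughPart p M : ℤ) = (Pool.Agent.H305R2.roughPart p M : ℤ) := rfl
    rw [h5]
    linarith
  exact_mod_cast h4

lemma floor_succ {v : ℝ} (hv : 0 ≤ v) : ⌊v + 1⌋₊ = ⌊v⌋₊ + 1 := by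
  exact_mod_cast Nat.floor_add_natCast hv 1

theorem result :
    -- the generalized Wagstaff numbers are the values at the points `(b, 1 / (b + 1))`
    (∀ b : ℕ, 2 ≤ b → ∀ p : ℕ, p.Prime → p ≠ 2 → ¬ p ∣ b + 1 →
      W b (1 / ((b : ℝ) + 1)) p * (b + 1) = b ^ p + 1) ∧
    -- the law at almost every point, for all `k` at once
    (∀ᵐ z : ℝ × ℝ, 1 < z.1 → 0 < z.2 → ∀ k : ℕ, 1 ≤ k →
      Tendsto (fun n : ℕ => (N k z.1 z.2 n : ℝ) / Real.log n ^ k) atTop
        (𝓝 (Real.exp Real.eulerMascheroniConstant / (k.factorial * Real.log z.1)))) := by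
  refine ⟨fun b hb p hp hp2 hpd => special hb hp hp2 hpd, ?_⟩
  have h := Pool.Agent.U916.KF.law' (g := fun _ => 1) (κ := 1) (C := 1) le_rfl
    (by intro p; simp)
  filter_upwards [h] with z hz h1 h2 k hk
  refine (hz h1 h2 k hk).congr fun n => ?_
  have e : ∀ p : ℕ, ⌊z.2 * z.1 ^ p + 1⌋₊ = ⌊z.2 * z.1 ^ p⌋₊ + 1 := fun p =>
    floor_succ (mul_nonneg h2.le (pow_nonneg (by linarith) p))
  unfold N W
  simp only [e]
  rfl

end Pool.Agent.Results.MP_ce8d0c_nt.KPrimeFactors
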