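import Mathlib
import Pool.Agent.U442.TA.SysB
import Pool.Agent.W66.LU
import Pool.Agent.TH888.R.Base

set_option autoImplicit false

/-!
# Generalized Wagstaff numbers in a fixed base and the last digits of almost every sequence

The base `b ≥ 2` is fixed.  Let `… d 2 d 1 d 0` be digits in base `b`, written to the left without
end, and let `D d p` be the integer with the last `p` digits `d (p - 1) … d 1 d 0`.  The digits
`… 0 (b-1) 0 (b-1) 1` (that is `d 0 = 1`, `d i = b - 1` for odd `i` and `d i = 0` for even `i ≥ 2`)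
give `D d p = (b ^ p + 1) / (b + 1)` for all odd `p`, the generalized Wagstaff numbers `Q(b, p)`.
Let `W d p` be the `p`-rough part (the product, with multiplicity, of the prime factors larger than
`p`) of `D d p`; for the Wagstaff numbers and odd primes `p` not dividing `b + 1` this is `Q(b, p)`
itself.  For a set `S` let `M S d n` be the number of primes `p ≤ n` in `S` with `W d p` prime, and
let `V S n` be the sum of `log p / p` over the primes `p ≤ n` in `S`.  The digits are chosen at
random, independently and uniformly.  We prove, for every base `b ≥ 2`, that for almost every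
sequence with `d 0` prime to `b`:

* `M d n = (e ^ γ / log b) log n + O((log n) ^ (1/2) (log log n) ^ (5/2))` for the set of all primes;
* for every given set `S`, infinitely many primes `p` of `S` have `W d p` prime if and only if
  `V S n → ∞`, and in this case
  `M S d n = (e ^ γ / log b) V S n + O((V L) ^ (1/2) (log (V L)) ^ 2)`, `V = V S n`, `L = log log n`.
-/

namespace Pool.Agent.Results.MP_ce8d0c_nt.LastDigits

open Filter Topology MeasureTheory Asymptotics

/-- The product, with multiplicity, of the prime factors of `m` that are larger than `p`. -/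
def roughPart (p m : ℕ) : ℕ := (m.primeFactorsList.filter (fun r => p < r)).prod

/-- The integer with the digits `d (p - 1) … d 1 d 0` in base `b`. -/
def D {b : ℕ} (d : ℕ → Fin b) (p : ℕ) : ℕ := ∑ i ∈ Finset.range p, (d i : ℕ) * b ^ i

/-- The `p`-rough part of the integer with the last `p` digits. -/
def W {b : ℕ} (d : ℕ → Fin b) (p : ℕ) : ℕ := roughPart p (D d p)

open Classical in
/-- The number of primes `p ≤ n` in the set `S` for which `W d p` is prime. -/
noncomputable def M {b : ℕ} (S : Set ℕ) (d : ℕ → Fin b) (n : ℕ) : ℕ :=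
  ((Finset.range (n + 1)).filter (fun p => p.Prime ∧ p ∈ S ∧ (W d p).Prime)).card

open Classical in
/-- The sum of `log p / p` over the primes `p ≤ n` in the set `S`. -/
noncomputable def V (S : Set ℕ) (n : ℕ) : ℝ :=
  ∑ p ∈ (Finset.range (n + 1)).filter (fun p => p.Prime ∧ p ∈ S), Real.log p / p

/-- Independent, uniformly distributed digits in base `b`. -/
noncomputable def digits (b : ℕ) : Measure (ℕ → Fin b) :=
  Measure.infinitePi (fun _ : ℕ => ProbabilityTheory.uniformOn (Set.univ : Set (Fin b)))

lemma V_eq (S : Set ℕ) (n : ℕ) : V S n = Pool.Agent.TH888.R.VS S n := by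
  classical
  unfold V Pool.Agent.TH888.R.VS
  rw [Finset.sum_filter]
  refine Finset.sum_congr rfl fun p _ => ?_
  by_cases h : p.Prime ∧ p ∈ S
  · rw [if_pos h, if_pos ⟨h.2, h.1⟩]
    rfl
  · rw [if_neg h, if_neg fun h1 => h ⟨h1.2, h1.1⟩]

lemma M_eq {b : ℕ} (S : Set ℕ) (d : ℕ → Fin b) (n : ℕ) :
    M S d n = Pool.Agent.TH888.R.cS S (fun p => Pool.Agent.W66L.dsum b p d) n := by
  classical
  unfold M Pool.Agent.TH888.R.cS
  rfl

lemma D_wagstaff {b : ℕ} (hb : 2 ≤ b) (e : ℕ → Fin b)
    (he : ∀ i, (e i : ℕ) = if i = 0 then 1 else if Odd i then b - 1 else 0) (k : ℕ) :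
    D e (2 * k + 1) * (b + 1) = b ^ (2 * k + 1) + 1 := by
  induction k with
  | zero =>
    unfold D
    simp [he]
  | succ k ih =>
    have h1 : D e (2 * (k + 1) + 1) = D e (2 * k + 1) + (b - 1) * b ^ (2 * k + 1) := by
      unfold D
      have e1 : 2 * (k + 1) + 1 = 2 * k + 1 + 1 + 1 := by ring
      rw [e1, Finset.sum_range_succ, Finset.sum_range_succ, he (2 * k + 1), he (2 * k + 1 + 1)]
      have h2 : ¬ (2 * k + 1 = 0) := by omega
      have h3 : ¬ (2 * k + 1 + 1 = 0) := by omega
      have h4 : Odd (2 * k + 1) := ⟨k, rfl⟩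
      have h5 : ¬ Odd (2 * k + 1 + 1) := by
        rw [Nat.not_odd_iff_even]
        exact ⟨k + 1, by ring⟩
      rw [if_neg h2, if_pos h4, if_neg h3, if_neg h5]
      ring
    rw [h1, add_mul, ih]
    obtain ⟨c, rfl⟩ : ∃ c, b = c + 1 := ⟨b - 1, by omega⟩
    rw [Nat.add_sub_cancel]
    ring

/-- The special sequence of digits gives the generalized Wagstaff numbers; for every base `b ≥ 2` and
almost every sequence of digits with the last digit prime to `b` the law holds with a square root
error term, for all lengths and for the lengths in a set of divergent weight, and the lengths in a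
set are infinitely many exactly when its weight diverges. -/
theorem result (b : ℕ) (hb : 2 ≤ b) :
    (∃ e : ℕ → Fin b, (∀ i, (e i : ℕ) = if i = 0 then 1 else if Odd i then b - 1 else 0) ∧
      (∀ p : ℕ, Odd p → D e p = (b ^ p + 1) / (b + 1) ∧ D e p * (b + 1) = b ^ p + 1) ∧
      (∀ p : ℕ, p.Prime → p ≠ 2 → ¬ p ∣ b + 1 → W e p = (b ^ p + 1) / (b + 1))) ∧
    (∀ᵐ d : ℕ → Fin b ∂(digits b), (d 0 : ℕ).Coprime b →
      (fun n : ℕ => (M Set.univ d n : ℝ) -
        Real.exp Real.eulerMascheroniConstant / Real.log b * Real.log n) =O[atTop]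
      (fun n : ℕ => Real.sqrt (Real.log n) * (Real.log (Real.log n)) ^ ((5 : ℝ) / 2))) ∧
    (∀ S : Set ℕ, ∀ᵐ d : ℕ → Fin b ∂(digits b), (d 0 : ℕ).Coprime b →
      ({p : ℕ | p.Prime ∧ p ∈ S ∧ (W d p).Prime}.Infinite ↔ Tendsto (V S) atTop atTop) ∧
      (Tendsto (V S) atTop atTop →
        (fun n : ℕ => (M S d n : ℝ) -
          Real.exp Real.eulerMascheroniConstant / Real.log b * V S n) =O[atTop]
        (fun n : ℕ => Real.sqrt (V S n * Real.log (Real.log n)) *
          (Real.log (V S n * Real.log (Real.log n))) ^ 2))) := by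
  haveI : NeZero b := ⟨by omega⟩
  have hV : ∀ S, V S = Pool.Agent.TH888.R.VS S := fun S => funext fun n => V_eq S n
  have hpt : ∀ S : Set ℕ, ∀ᵐ d : ℕ → Fin b ∂(digits b), (d 0 : ℕ).Coprime b →
      Pool.Agent.TH888.R.Pt (fun p => Pool.Agent.W66L.dsum b p d)
      (Real.exp Real.eulerMascheroniConstant / Real.log b) S := by
    intro S
    have h := Pool.Agent.U442.TA.pt_full (b := b) hb (Pool.Agent.W66L.full_digits b) S
    filter_upwards [h] with d hd hc
    have hc' : (Pool.Agent.W66L.dsum b 1 d).Coprime b := by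
      unfold Pool.Agent.W66L.dsum
      simpa using hc
    exact hd hc'
  refine ⟨?_, ?_, fun S => ?_⟩
  · have hlt : ∀ i : ℕ, (if i = 0 then 1 else if Odd i then b - 1 else 0) < b := by
      intro i
      split_ifs <;> omega
    refine ⟨fun i => ⟨if i = 0 then 1 else if Odd i then b - 1 else 0, hlt i⟩, fun i => rfl, ?_, ?_⟩
    · rintro p ⟨k, rfl⟩
      have h := D_wagstaff hb (fun i => ⟨if i = 0 then 1 else if Odd i then b - 1 else 0, hlt i⟩)
        (fun i => rfl) k
      refine ⟨?_, h⟩
      exact (Nat.div_eq_of_eq_mul_left (by omega) h.symm).symm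
    · intro p hp hp2 hpb
      obtain ⟨k, rfl⟩ := hp.odd_of_ne_two hp2
      have h := D_wagstaff hb (fun i => ⟨if i = 0 then 1 else if Odd i then b - 1 else 0, hlt i⟩)
        (fun i => rfl) k
      have h2 := Pool.Agent.W66L.rough_wagstaff hb hp hp2 hpb h
      have h3 : W (fun i => ⟨if i = 0 then 1 else if Odd i then b - 1 else 0, hlt i⟩) (2 * k + 1) =
        Pool.Agent.H305R2.roughPart (2 * k + 1)
          (D (fun i => ⟨if i = 0 then 1 else if Odd i then b - 1 else 0, hlt i⟩) (2 * k + 1)) := rfl
      rw [h3, h2]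
      exact (Nat.div_eq_of_eq_mul_left (by omega) h.symm).symm
  · filter_upwards [hpt Set.univ] with d hd h0
    obtain ⟨B, hB, h⟩ := (hd h0).law Pool.Agent.TH888.R.VS_univ_tendsto
    simp only [M_eq]
    exact Pool.Agent.TH888.R.bigO_all hB h
  · rw [hV]
    filter_upwards [hpt S] with d hd h0
    refine ⟨⟨fun hi => ?_, fun hT => (hd h0).inf hT⟩, fun hS => ?_⟩
    · by_contra hn
      exact hi ((hd h0).fin hn)
    · obtain ⟨B, hB, h⟩ := (hd h0).law hS
      simp only [M_eq]
      exact Pool.Agent.TH888.R.bigO_set hB hS h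

end Pool.Agent.Results.MP_ce8d0c_nt.LastDigits
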