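import Mathlib
import Pool.Agent.N176.SH.Spe
import Pool.Agent.U776.PL.Tup

set_option autoImplicit false

/-!
# Generalized Wagstaff numbers: the good exponents of almost every amplitude follow a Poisson law

For an integer base `b ≥ 2`, a real `β > 0` and a prime `p` let `W b β p` be the `p`-rough part (the
product, with multiplicity, of the prime factors larger than `p`) of the least integer that is at
least `β * b ^ p`.  For `β = 1 / (b + 1)` this is the number `Q(b, p) = (b ^ p + 1) / (b + 1)` of the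
question, for every odd prime `p` that does not divide `b + 1`.  Call a prime `p` good for `β` in base
`b` if `W b β p` is prime.

The heuristic for the primes `Q(b, p)` is a Poisson model: for a general `β` the numbers of good
exponents in disjoint sets of primes should behave like independent Poisson variables, and the
expected number in a finite set `T` of primes should be `κ b * V T`, `V T = ∑_{p ∈ T} log p / p`,
`κ b = e ^ γ / log b`.  We prove that almost every single `β` behaves in this way, in all bases at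
once, along thin sets of primes: sets whose part in every dyadic interval `(x, 2 x]` has small weight
`V`, and in which primes at bounded distance from one another have small total weight.

Precisely, let `y 0 ≤ y 1 ≤ …`, and let `T n i`, `i` in a finite index set, be disjoint finite sets of
primes in `[y n, y (n + 1))`, thin as `n → ∞`, with `V (T n i) → v i`.  Let `X n` be the vector of the
numbers of good exponents of `β` in the sets `T n i`.  For almost every `β > 0`, in all bases `b` at
once, the sequence `X 0, X 1, X 2, …` is generic for the sequence of independent vectors of independent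
Poisson variables with the parameters `κ b * v i`: every tuple `(k 0, …, k (r - 1))` of vectors occurs
among the tuples `(X n, …, X (n + r - 1))` with its Poisson probability as frequency.
-/

namespace Pool.Agent.Results.MP_ce8d0c_nt.PoissonLaw

open Filter Topology MeasureTheory

/-- The product, with multiplicity, of the prime factors of `m` that are larger than `p`. -/
def roughPart (p m : ℕ) : ℕ := (m.primeFactorsList.filter (fun r => p < r)).prod

/-- The `p`-rough part of the least integer that is at least `β * b ^ p`. -/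
noncomputable def W (b : ℕ) (β : ℝ) (p : ℕ) : ℕ := roughPart p ⌈β * (b : ℝ) ^ p⌉₊

/-- The number of the `p` in the finite set `T` for which `W b β p` is prime. -/
noncomputable def N (b : ℕ) (T : Finset ℕ) (β : ℝ) : ℕ :=
  (T.filter (fun p => (W b β p).Prime)).card

/-- The weight `∑_{p ∈ T} log p / p` of a finite set. -/
noncomputable def V (T : Finset ℕ) : ℝ := ∑ p ∈ T, Real.log p / p

/-- The constant `e ^ γ / log b`. -/
noncomputable def κ (b : ℕ) : ℝ := Real.exp Real.eulerMascheroniConstant / Real.log b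

/-- The weights of the Poisson law with the parameter `lam`. -/
noncomputable def pois (lam : ℝ) (k : ℕ) : ℝ := Real.exp (-lam) * lam ^ k / k.factorial

open Classical in
/-- `T 0, T 1, …` are families (indexed by `ι`) of pairwise disjoint finite sets of primes; the weight
of the part in a dyadic interval tends to zero, uniformly in the interval; the weight of the members
which are followed by another member of the family at a distance less than `g` tends to zero, for
every `g`. -/
structure Thin {ι : Type} (T : ℕ → ι → Finset ℕ) : Prop where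
  prime : ∀ n i, ∀ p ∈ T n i, p.Prime
  disjoint : ∀ n i j, i ≠ j → Disjoint (T n i) (T n j)
  dyadic : ∀ δ : ℝ, 0 < δ → ∀ᶠ n in atTop, ∀ i, ∀ x : ℕ,
    V ((T n i).filter (fun p => x < p ∧ p ≤ 2 * x)) ≤ δ
  close : ∀ g : ℕ, ∀ δ : ℝ, 0 < δ → ∀ᶠ n in atTop, ∀ i,
    V ((T n i).filter (fun p => ∃ j, ∃ q ∈ T n j, p < q ∧ q < p + g)) ≤ δ

lemma W_eq {b : ℕ} (hb : 2 ≤ b) {β : ℝ} (hβ : 0 < β) (p : ℕ) :
    W b β p = Pool.Agent.H305R2.roughPart p
    (Pool.Agent.N176.SH.sh (fun _ => 1) p (Pool.Agent.N176.GP.NB b β p)) := by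
  have hx : 0 < β * (b : ℝ) ^ p := by positivity
  have h1 : 0 < ⌈β * (b : ℝ) ^ p⌉₊ := Nat.ceil_pos.2 hx
  have h2 : Pool.Agent.N176.SH.sh (fun _ => 1) p (Pool.Agent.N176.GP.NB b β p) =
      ⌈β * (b : ℝ) ^ p⌉₊ := by
    unfold Pool.Agent.N176.SH.sh Pool.Agent.N176.GP.NB
    show (((⌈β * (b : ℝ) ^ p⌉₊ - 1 : ℕ) : ℤ) + 1).toNat = _
    omega
  rw [h2]
  rfl

lemma N_eq {b : ℕ} (hb : 2 ≤ b) (T : Finset ℕ) {β : ℝ} (hβ : 0 < β) :
    Pool.Agent.U776.PL.NS (fun _ => 1) b T β = N b T β := by
  unfold Pool.Agent.U776.PL.NS N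
  simp only [W_eq hb hβ]

/-- the special value -/
lemma special {b p : ℕ} (hb : 2 ≤ b) (hp : p.Prime) (hp2 : p ≠ 2) (hpb : ¬ p ∣ b + 1) :
    W b (1 / ((b : ℝ) + 1)) p * (b + 1) = b ^ p + 1 := by
  have hodd : Odd p := hp.odd_of_ne_two hp2
  have h := Pool.Agent.N176.SH.spe (a := b) (b := -1) (by
      rw [abs_neg, abs_one]
      exact_mod_cast (by omega : 1 < b))
    (IsCoprime.neg_right isCoprime_one_right) hp (by
      intro h
      apply hpb
      have h2 : ((p : ℕ) : ℤ) ∣ ((b + 1 : ℕ) : ℤ) := by push_cast; simpa using h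
      exact_mod_cast h2)
  have hb2 : (2 : ℝ) ≤ b := by exact_mod_cast hb
  have h2 : Pool.Agent.N176.SH.WW b (-1) (1 / ((b : ℝ) - ((-1 : ℤ) : ℝ))) p =
      W b (1 / ((b : ℝ) + 1)) p := by
    unfold Pool.Agent.N176.SH.WW W
    have e : (b : ℝ) - ((-1 : ℤ) : ℝ) = (b : ℝ) + 1 := by
      push_cast
      ring
    rw [e]
    have h3 : ⌈(((-1 : ℤ) : ℝ)) ^ p / ((b : ℝ) + 1)⌉ = 0 := by
      have e2 : (((-1 : ℤ) : ℝ)) ^ p = -1 := by
        push_cast
        exact hodd.neg_one_pow
      rw [e2, Int.ceil_eq_iff]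
      have h4 : (1 : ℝ) / ((b : ℝ) + 1) < 1 := by
        rw [div_lt_one (by linarith)]
        linarith
      have h5 : (0 : ℝ) < 1 / ((b : ℝ) + 1) := by positivity
      have h6 : (-1 : ℝ) / ((b : ℝ) + 1) = -(1 / ((b : ℝ) + 1)) := by ring
      rw [h6]
      push_cast
      constructor <;> linarith
    rw [h3, sub_zero]
    have h4 : ((⌈1 / ((b : ℝ) + 1) * (b : ℝ) ^ p⌉₊ : ℕ) : ℤ) = ⌈1 / ((b : ℝ) + 1) * (b : ℝ) ^ p⌉ :=
      Int.natCast_ceil_eq_ceil (by positivity)
    rw [← h4, Int.toNat_natCast]
    rfl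
  rw [h2, hodd.neg_one_pow] at h
  have h3 : ((W b (1 / ((b : ℝ) + 1)) p * (b + 1) : ℕ) : ℤ) = ((b ^ p + 1 : ℕ) : ℤ) := by
    push_cast
    linarith
  exact_mod_cast h3

open Classical in
/-- The special values; the Poisson law for almost every single amplitude, in all bases at once. -/
theorem result :
    (∀ b : ℕ, 2 ≤ b → ∀ p : ℕ, p.Prime → p ≠ 2 → ¬ p ∣ b + 1 →
      W b (1 / ((b : ℝ) + 1)) p * (b + 1) = b ^ p + 1) ∧
    (∀ (ι : Type) [Fintype ι] (T : ℕ → ι → Finset ℕ) (v : ι → ℝ), Thin T →
      ∀ y : ℕ → ℕ, Monotone y → (∀ n i, ∀ p ∈ T n i, y n ≤ p ∧ p < y (n + 1)) →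
      (∀ i, Tendsto (fun n => V (T n i)) atTop (𝓝 (v i))) → 0 < ∑ i, v i →
      ∀ᵐ β : ℝ, 0 < β → ∀ b : ℕ, 2 ≤ b → ∀ (r : ℕ) (k : Fin r → ι → ℕ),
      Tendsto (fun m : ℕ => (((Finset.range m).filter
        (fun n => ∀ (l : Fin r) (i : ι), N b (T (n + l) i) β = k l i)).card : ℝ) / (m : ℝ)) atTop
        (𝓝 (∏ l, ∏ i, pois (κ b * v i) (k l i)))) := by
  refine ⟨fun b hb p hp hp2 hpb => special hb hp hp2 hpb, ?_⟩
  intro ι _ T v hT y hmono hy hv hpos
  have h1 : ∀ b : ℕ, ∀ᵐ β : ℝ, 2 ≤ b → 0 < β → ∀ (r : ℕ) (k : Fin r → ι → ℕ),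
      Tendsto (fun m : ℕ => (((Finset.range m).filter
        (fun n => ∀ (l : Fin r) (i : ι), N b (T (n + l) i) β = k l i)).card : ℝ) / (m : ℝ)) atTop
        (𝓝 (∏ l, ∏ i, pois (κ b * v i) (k l i))) := by
    intro b
    by_cases hb : 2 ≤ b
    · have h := Pool.Agent.U776.PL.quenched_tuples (Pool.Agent.U776.PL.ok_one hb) T y hmono hy
        hT.disjoint (fun g δ hδ => by
          filter_upwards [hT.close g δ hδ] with n hn i
          refine le_trans (le_of_eq ?_) (hn i)
          exact Finset.sum_congr (Finset.ext fun p => by simp only [Finset.mem_filter])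
            fun _ _ => rfl) hT.dyadic hv hpos
      filter_upwards [h] with β hβ _ h0 r k
      have h2 := hβ h0 r k
      simp only [N_eq hb _ h0] at h2
      exact h2
    · exact Eventually.of_forall fun β h => absurd h hb
  filter_upwards [ae_all_iff.2 h1] with β hβ h0 b hb
  exact hβ b hb h0

end Pool.Agent.Results.MP_ce8d0c_nt.PoissonLaw
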