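import Mathlib
import Pool.Agent.U310.Mers.Pairs
import Pool.Agent.U310.Mers.Pair

set_option autoImplicit false

/-!
# Generalized Wagstaff numbers in random models of the primes with a sieve

The question is whether, for every base `b ≥ 2` without an algebraic factorization, there are infinitely many
odd `n` for which `Q(b, n) = (b ^ n + 1) / (b + 1)` is prime; then `n` is a prime up to small exceptions.
We answer it, for all bases at once, in random models of the primes: the natural numbers are decided one after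
the other, no `m` with a prime factor at most `z(m)` is chosen, and the conditional probability of choosing
`m + 1` (without prime factors at most `z(m + 1)`) given the past is asymptotic to
`∏_{q ≤ z(m + 1)} (1 - 1/q)⁻¹ / log m`.  No independence and no rate is assumed.
-/

open MeasureTheory Filter
open scoped Topology

namespace Pool.Agent.Results.MP_ce8d0c_nt.RandomSieveModels

/-- `∏_{q ≤ x} (1 - 1/q)⁻¹`, `q` prime -/
noncomputable def W (x : ℕ) : ℝ := ∏ q ∈ (Finset.Icc 1 x).filter Nat.Prime, (1 - (q : ℝ)⁻¹)⁻¹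

/-- `m` has no prime factor at most `z m` -/
def Rough (z : ℕ → ℕ) (m : ℕ) : Prop := ∀ q, q.Prime → q ≤ z m → ¬ q ∣ m

/-- A random model of the primes with sieve level `z`.  `S n` is the event that `n` is chosen; it is adapted
to the filtration `ℱ`; no `n` with a prime factor at most `z n` is chosen; almost surely the conditional
probability of `S (n + 1)` given `ℱ n`, times `log n / W (z (n + 1))`, tends to `1` along the `n` for which
`n + 1` has no prime factor at most `z (n + 1)`. -/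
structure Model {Ω : Type} [mΩ : MeasurableSpace Ω] (μ : Measure Ω) (ℱ : Filtration ℕ mΩ)
    (S : ℕ → Set Ω) (z : ℕ → ℕ) : Prop where
  adapted : ∀ n, MeasurableSet[ℱ n] (S n)
  sieved : ∀ n, ¬ Rough z n → S n = ∅
  density : ∀ᵐ ω ∂μ, Tendsto (fun n : ℕ =>
    (μ[(S (n + 1)).indicator (fun _ => (1 : ℝ)) | ℱ n]) ω * Real.log n / W (z (n + 1)))
    (atTop ⊓ 𝓟 {n : ℕ | Rough z (n + 1)}) (𝓝 1)

/-- `Q(b, n) = (b ^ n + 1) / (b + 1)` -/
def Q (b n : ℕ) : ℕ := (b ^ n + 1) / (b + 1)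

/-- the number of odd primes `p ≤ n` in `E` with `Q(b, p) ∈ S` -/
noncomputable def N (S : Set ℕ) (b : ℕ) (E : Set ℕ) (n : ℕ) : ℕ :=
  {p | p ≤ n ∧ p.Prime ∧ Odd p ∧ p ∈ E ∧ Q b p ∈ S}.ncard

open Classical in
/-- `∑ log p / p` over the odd primes `p ≤ n` in `E` -/
noncomputable def L (E : Set ℕ) (n : ℕ) : ℝ :=
  ∑ p ∈ (Finset.Icc 1 n).filter (fun p => p.Prime ∧ Odd p ∧ p ∈ E), Real.log p / p

lemma Q_eq (b : ℕ) (hb : 2 ≤ b) (p : ℕ) (hp : Odd p) : Q b p = Pool.Agent.U310.Mers.DP b (-1) p := by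
  have h1 := Pool.Agent.U310.Mers.DP_cast (a := b) (b := -1) (by exact_mod_cast hb)
    (by have : (2 : ℤ) ≤ b := by exact_mod_cast hb
        linarith) (by linarith) p
  rw [hp.neg_one_pow] at h1
  have h2 : Pool.Agent.U310.Mers.DP b (-1) p * (b + 1) = b ^ p + 1 := by
    have : ((Pool.Agent.U310.Mers.DP b (-1) p : ℕ) : ℤ) * ((b : ℤ) + 1) = (b : ℤ) ^ p + 1 := by linarith
    exact_mod_cast this
  unfold Q
  rw [← h2]
  exact Nat.mul_div_cancel _ (by omega)

lemma expo_minus (b : ℕ) (hb : 2 ≤ b) :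
    Pool.Agent.U310.Mers.Expo (Pool.Agent.U310.Mers.DP b (-1)) (Real.log b) := by
  have h2 : (2 : ℤ) ≤ b := by exact_mod_cast hb
  have h := Pool.Agent.U310.Mers.DP_expo (a := b) (b := -1) (by linarith) (by linarith)
    (by linarith) (by exact ⟨0, -1, by norm_num⟩)
  simpa using h

lemma expo_plus (b : ℕ) (hb : 2 ≤ b) :
    Pool.Agent.U310.Mers.Expo (Pool.Agent.U310.Mers.DP b 1) (Real.log b) := by
  have h2 : (2 : ℤ) ≤ b := by exact_mod_cast hb
  have h := Pool.Agent.U310.Mers.DP_expo (a := b) (b := 1) (by linarith) (by linarith)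
    (by linarith) (by exact ⟨0, 1, by norm_num⟩)
  simpa using h

/-- the repunit `(b ^ p - 1) / (b - 1)` -/
lemma R_eq (b : ℕ) (hb : 2 ≤ b) (p : ℕ) : (b ^ p - 1) / (b - 1) = Pool.Agent.U310.Mers.DP b 1 p := by
  have h2 : (2 : ℤ) ≤ b := by exact_mod_cast hb
  have h1 := Pool.Agent.U310.Mers.DP_cast (a := b) (b := 1) (by linarith) (by linarith) (by linarith) p
  have hpow : 1 ≤ b ^ p := Nat.one_le_pow _ _ (by omega)
  have h3 : Pool.Agent.U310.Mers.DP b 1 p * (b - 1) = b ^ p - 1 := by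
    have : ((Pool.Agent.U310.Mers.DP b 1 p * (b - 1) : ℕ) : ℤ) = ((b ^ p - 1 : ℕ) : ℤ) := by
      rw [Nat.cast_mul, Nat.cast_sub (by omega : 1 ≤ b), Nat.cast_sub hpow, Nat.cast_pow, Nat.cast_one, h1,
        one_pow]
    exact_mod_cast this
  rw [← h3]
  exact Nat.mul_div_cancel _ (by omega)

lemma ne_of_rate {D D' : ℕ → ℕ} {c c' : ℝ} (h : Pool.Agent.U310.Mers.Expo D c)
    (h' : Pool.Agent.U310.Mers.Expo D' c') (hc : c ≠ c') : ∀ᶠ p in atTop, D p ≠ D' p := by
  have h1 := h.lim.sub h'.lim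
  have h2 : ∀ᶠ p : ℕ in atTop, Real.log (D p) / p - Real.log (D' p) / p ≠ 0 :=
    h1.eventually_ne (sub_ne_zero.2 hc)
  filter_upwards [h2] with p hp heq
  exact hp (by rw [heq, sub_self])

lemma log_ne {b c : ℕ} (hb : 2 ≤ b) (hc : 2 ≤ c) (h : b ≠ c) : Real.log b ≠ Real.log c := by
  intro h1
  have h2 := Real.log_injOn_pos (Set.mem_Ioi.2 (by exact_mod_cast (by omega : 0 < b)))
    (Set.mem_Ioi.2 (by exact_mod_cast (by omega : 0 < c))) h1
  exact h (by exact_mod_cast h2)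

lemma ne_same (b : ℕ) (hb : 2 ≤ b) :
    ∀ᶠ p in atTop, Pool.Agent.U310.Mers.DP b (-1) p ≠ Pool.Agent.U310.Mers.DP b 1 p := by
  filter_upwards [eventually_ge_atTop 2] with p hp heq
  have h2 : (2 : ℤ) ≤ b := by exact_mod_cast hb
  have h1 := Pool.Agent.U310.Mers.DP_cast (a := b) (b := -1) (by linarith) (by linarith) (by linarith) p
  have h3 := Pool.Agent.U310.Mers.DP_cast (a := b) (b := 1) (by linarith) (by linarith) (by linarith) p
  rw [heq] at h1
  have h4 : (-1 : ℤ) ^ p ≤ 1 := by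
    rcases neg_one_pow_eq_or ℤ p with h | h <;> rw [h] <;> norm_num
  have h6 : (-1 : ℤ) ≤ (-1) ^ p := by
    rcases neg_one_pow_eq_or ℤ p with h | h <;> rw [h] <;> norm_num
  have h5 : (b : ℤ) ^ 2 ≤ (b : ℤ) ^ p := pow_le_pow_right₀ (by linarith) hp
  rw [one_pow] at h3
  -- `(b + 1) x = b ^ p - (-1) ^ p`, `(b - 1) x = b ^ p - 1`, so `2 x = 1 - (-1) ^ p`
  have h7 : 2 * ((Pool.Agent.U310.Mers.DP b 1 p : ℕ) : ℤ) ≤ 2 := by linarith
  have h8 : ((Pool.Agent.U310.Mers.DP b 1 p : ℕ) : ℤ) * ((b : ℤ) - 1) ≤ 1 * ((b : ℤ) - 1) :=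
    mul_le_mul_of_nonneg_right (by linarith) (by linarith)
  nlinarith

/-- **Generalized Wagstaff numbers in random models with a sieve.**

(1) For every base `b ≥ 2`, for almost all odd primes `p` (in the sense of relative density) the number
`Q(b, p) = (b ^ p + 1) / (b + 1)` has no prime factor `q ≤ g(p) p log p`, for every `g → 0`.
(This concerns the actual numbers.)

Consider a random model with sieve level `z`, `log z(m) / log log m → θ > 0`.

(2) Let `b ≥ 2`, `z(m) ≤ τ log m` for all large `m`, `τ log b < 2`.  For every set `E` of exponents: if the sum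
of `log p / p` over the odd primes `p` in `E` diverges, then almost surely the number of odd primes `p ≤ n` in `E`
with `Q(b, p)` chosen is asymptotic to `(θ e ^ γ / log b) ∑ log p / p`, the sum over the odd primes `p ≤ n` in
`E`; if the sum converges, then almost surely only finitely many `Q(b, p)`, `p` an odd prime in `E`, are chosen.

(3) Let `z(m) / (log m log log m) → 0`.  If `E` has relative logarithmic density `d` in the primes, then almost
surely, for all bases `b ≥ 2` at once, the number of odd primes `p ≤ n` in `E` with `Q(b, p)` chosen, divided by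
`log n`, tends to `d θ e ^ γ / log b`; in particular, almost surely for every base `b ≥ 2` there are infinitely
many odd primes `p` with `Q(b, p)` chosen, their number up to `n` divided by `log n` tending to
`θ e ^ γ / log b`.

(4) Almost surely the following holds for all bases `b, c ≥ 2`: if `b ≠ c`, there are only finitely many odd `p`
with `Q(b, p)` and `Q(c, p)` both chosen; and (also for `b = c`) there are only finitely many odd `p` with
`Q(b, p)` and the repunit `(c ^ p - 1) / (c - 1)` both chosen. -/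
theorem result :
    -- (1)
    (∀ b : ℕ, 2 ≤ b → ∀ g : ℕ → ℝ, Tendsto g atTop (𝓝 0) →
      Tendsto (fun n : ℕ => ({p : ℕ | p ≤ n ∧ p.Prime ∧ Odd p ∧ ∃ q : ℕ, q.Prime ∧ q ∣ Q b p ∧
        (q : ℝ) ≤ g p * (p * Real.log p)}.ncard : ℝ) / (n / Real.log n)) atTop (𝓝 0)) ∧
    ∀ {Ω : Type} [mΩ : MeasurableSpace Ω] (μ : Measure Ω) [IsProbabilityMeasure μ]
      (ℱ : Filtration ℕ mΩ) (S : ℕ → Set Ω) (z : ℕ → ℕ) (_ : Model μ ℱ S z) (θ : ℝ) (_ : 0 < θ)
      (_ : Tendsto (fun m : ℕ => Real.log (z m) / Real.log (Real.log m)) atTop (𝓝 θ)),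
    -- (2)
    (∀ b : ℕ, 2 ≤ b → ∀ τ : ℝ, 0 ≤ τ → τ * Real.log b < 2 →
      (∀ᶠ m : ℕ in atTop, (z m : ℝ) ≤ τ * Real.log m) →
      ∀ E : Set ℕ,
        (Tendsto (L E) atTop atTop →
          ∀ᵐ ω ∂μ, Tendsto (fun n => (N {k | ω ∈ S k} b E n : ℝ) /
            (θ * Real.exp Real.eulerMascheroniConstant / Real.log b * L E n)) atTop (𝓝 1)) ∧
        ((∃ C : ℝ, ∀ n, L E n ≤ C) →
          ∀ᵐ ω ∂μ, {p | p.Prime ∧ Odd p ∧ p ∈ E ∧ ω ∈ S (Q b p)}.Finite)) ∧
    -- (3)
    (Tendsto (fun m : ℕ => (z m : ℝ) / (Real.log m * Real.log (Real.log m))) atTop (𝓝 0) →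
      (∀ (E : Set ℕ) (d : ℝ), Tendsto (fun n => L E n / Real.log n) atTop (𝓝 d) →
        ∀ᵐ ω ∂μ, ∀ b : ℕ, 2 ≤ b → Tendsto (fun n : ℕ => (N {k | ω ∈ S k} b E n : ℝ) / Real.log n) atTop
          (𝓝 (θ * Real.exp Real.eulerMascheroniConstant / Real.log b * d))) ∧
      ∀ᵐ ω ∂μ, ∀ b : ℕ, 2 ≤ b → {p : ℕ | p.Prime ∧ Odd p ∧ ω ∈ S (Q b p)}.Infinite ∧
        Tendsto (fun n : ℕ => ({p : ℕ | p ≤ n ∧ p.Prime ∧ Odd p ∧ ω ∈ S (Q b p)}.ncard : ℝ) / Real.log n)
          atTop (𝓝 (θ * Real.exp Real.eulerMascheroniConstant / Real.log b))) ∧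
    -- (4)
    (∀ᵐ ω ∂μ, ∀ b c : ℕ, 2 ≤ b → 2 ≤ c →
      (b ≠ c → {p : ℕ | Odd p ∧ ω ∈ S (Q b p) ∧ ω ∈ S (Q c p)}.Finite) ∧
      {p : ℕ | Odd p ∧ ω ∈ S (Q b p) ∧ ω ∈ S ((c ^ p - 1) / (c - 1))}.Finite) := by
  classical
  refine ⟨fun b hb g hg => ?_, ?_⟩
  · have h1 := Pool.Agent.U310.Mers.galmost (expo_minus b hb) g hg
    refine squeeze_zero' (Eventually.of_forall fun n => ?_) (Eventually.of_forall fun n => ?_) h1
    · exact div_nonneg (Nat.cast_nonneg _) (div_nonneg (Nat.cast_nonneg _) (Real.log_natCast_nonneg n))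
    · apply div_le_div_of_nonneg_right _ (div_nonneg (Nat.cast_nonneg _) (Real.log_natCast_nonneg n))
      have hfin : {p : ℕ | p ≤ n ∧ p.Prime ∧ ∃ q : ℕ, q.Prime ∧ q ∣ Pool.Agent.U310.Mers.DP b (-1) p ∧
          (q : ℝ) ≤ g p * (p * Real.log p)}.Finite :=
        (Set.finite_Iic n).subset fun p hp => hp.1
      have : {p : ℕ | p ≤ n ∧ p.Prime ∧ Odd p ∧ ∃ q : ℕ, q.Prime ∧ q ∣ Q b p ∧
          (q : ℝ) ≤ g p * (p * Real.log p)} ⊆
          {p : ℕ | p ≤ n ∧ p.Prime ∧ ∃ q : ℕ, q.Prime ∧ q ∣ Pool.Agent.U310.Mers.DP b (-1) p ∧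
          (q : ℝ) ≤ g p * (p * Real.log p)} := by
        rintro p ⟨hp1, hp2, hp3, hp4⟩
        rw [Q_eq b hb p hp3] at hp4
        exact ⟨hp1, hp2, hp4⟩
      exact_mod_cast Set.ncard_le_ncard this hfin
  intro Ω mΩ μ hμ ℱ S z hM θ hθ hz
  have hW' := Pool.Agent.U310.Mers.W_small z θ hθ hz
  have hprof : ∀ᵐ ω ∂μ, ∀ ε : ℝ, 0 < ε → ∀ᶠ n : ℕ in atTop,
        |Pool.Agent.R528.RM.dens μ ℱ S n ω - Pool.Agent.U310.Mers.rho1 z (n + 1)| ≤
          ε * Pool.Agent.U310.Mers.rho1 z (n + 1) :=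
    Pool.Agent.U310.Mers.profile z hW' hM.sieved hM.density
  -- translation
  have hN : ∀ (T : Set ℕ) (b : ℕ), 2 ≤ b → ∀ (E : Set ℕ) (n : ℕ),
      N T b E n = Pool.Agent.U310.Mers.MD (Pool.Agent.U310.Mers.DP b (-1)) T ({p | Odd p} ∩ E) n := by
    intro T b hb E n
    unfold N Pool.Agent.U310.Mers.MD
    congr 1
    ext p
    constructor
    · rintro ⟨h1, h2, h3, h4, h5⟩
      rw [Q_eq b hb p h3] at h5
      exact ⟨h1, h2, ⟨h3, h4⟩, h5⟩
    · rintro ⟨h1, h2, ⟨h3, h4⟩, h5⟩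
      rw [← Q_eq b hb p h3] at h5
      exact ⟨h1, h2, h3, h4, h5⟩
  have hL : ∀ (E : Set ℕ) (n : ℕ), L E n = Pool.Agent.U310.Mers.L ({p | Odd p} ∩ E) n := by
    intro E n
    unfold L Pool.Agent.U310.Mers.L
    refine Finset.sum_congr ?_ fun _ _ => rfl
    ext p
    simp only [Finset.mem_filter, Set.mem_inter_iff, Set.mem_ofPred_eq]
  have hLuniv : Tendsto (fun n => L Set.univ n / Real.log n) atTop (𝓝 1) := by
    have h1 := Pool.Agent.U310.Mers.L_univ
    have h2 : Tendsto (fun n : ℕ => (Real.log 2 / 2) / Real.log n) atTop (𝓝 0) :=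
      tendsto_const_nhds.div_atTop Pool.Agent.U310.Mers.logNat
    have h3 := h1.sub h2
    rw [sub_zero] at h3
    refine tendsto_of_tendsto_of_tendsto_of_le_of_le' h3 h1 ?_ ?_
    · refine Eventually.of_forall fun n => ?_
      rw [← sub_div]
      apply div_le_div_of_nonneg_right _ (Real.log_natCast_nonneg n)
      have h4 := Pool.Agent.U310.Mers.L_diff_le Set.univ {p | Odd p} n {2} (fun p _ hp _ hp2 => by
        rcases hp.eq_two_or_odd' with h | h
        · rw [h]; exact Finset.mem_singleton_self 2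
        · exact absurd h hp2)
      rw [Finset.sum_singleton] at h4
      rw [hL, Set.inter_comm]
      push_cast at h4
      linarith
    · refine Eventually.of_forall fun n => ?_
      apply div_le_div_of_nonneg_right _ (Real.log_natCast_nonneg n)
      rw [hL, Set.inter_comm]
      exact Pool.Agent.U310.Mers.L_le _ _ n
  refine ⟨?_, ?_, ?_⟩
  · intro b hb τ hτ hτc hzτ E
    have hX := expo_minus b hb
    refine ⟨fun h => ?_, fun h => ?_⟩
    · have h1 : Tendsto (Pool.Agent.U310.Mers.L ({p | Odd p} ∩ E)) atTop atTop :=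
        h.congr fun n => hL E n
      filter_upwards [Pool.Agent.U310.Mers.gtau_inf hM.adapted hX z θ hθ hz hprof τ hτ hτc hzτ _ h1] with ω hω
      refine hω.congr fun n => ?_
      rw [hN _ b hb, hL]
    · obtain ⟨C, hC⟩ := h
      filter_upwards [Pool.Agent.U310.Mers.gtau_fin hM.adapted hX z θ hθ hz hprof ({p | Odd p} ∩ E)
        ⟨C, fun n => by rw [← hL]; exact hC n⟩] with ω hω
      refine hω.subset ?_
      rintro p ⟨h1, h2, h3, h4⟩
      rw [Q_eq b hb p h2] at h4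
      exact ⟨h1, ⟨h2, h3⟩, h4⟩
  · intro hz0
    have h4 : ∀ (E : Set ℕ) (d : ℝ), Tendsto (fun n => L E n / Real.log n) atTop (𝓝 d) →
        ∀ᵐ ω ∂μ, ∀ b : ℕ, 2 ≤ b → Tendsto (fun n : ℕ => (N {k | ω ∈ S k} b E n : ℝ) / Real.log n) atTop
          (𝓝 (θ * Real.exp Real.eulerMascheroniConstant / Real.log b * d)) := by
      intro E d hd
      rw [ae_all_iff]
      intro b
      by_cases hb : 2 ≤ b
      · have h1 : Tendsto (fun n => Pool.Agent.U310.Mers.L ({p | Odd p} ∩ E) n / Real.log n) atTop (𝓝 d) :=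
          hd.congr fun n => by rw [hL]
        filter_upwards [Pool.Agent.U310.Mers.gdens hM.adapted (expo_minus b hb) z θ hθ hz hprof hz0 _ d h1]
          with ω hω _
        exact hω.congr fun n => by rw [hN _ b hb]
      · exact Eventually.of_forall fun ω h => absurd h hb
    refine ⟨h4, ?_⟩
    filter_upwards [h4 Set.univ 1 hLuniv] with ω hω b hb
    have h5 := hω b hb
    rw [mul_one] at h5
    have h6 : Tendsto (fun n : ℕ => ({p : ℕ | p ≤ n ∧ p.Prime ∧ Odd p ∧ ω ∈ S (Q b p)}.ncard : ℝ) / Real.log n)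
          atTop (𝓝 (θ * Real.exp Real.eulerMascheroniConstant / Real.log b)) := by
      refine h5.congr fun n => ?_
      have : {p | p ≤ n ∧ p.Prime ∧ Odd p ∧ p ∈ Set.univ ∧ Q b p ∈ {k | ω ∈ S k}} =
          {p | p ≤ n ∧ p.Prime ∧ Odd p ∧ ω ∈ S (Q b p)} := by
        ext p
        constructor
        · rintro ⟨h1, h2, h3, -, h4⟩
          exact ⟨h1, h2, h3, h4⟩
        · rintro ⟨h1, h2, h3, h4⟩
          exact ⟨h1, h2, h3, trivial, h4⟩
      unfold N
      rw [this]
    refine ⟨?_, h6⟩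
    intro hfin
    have h7 : Tendsto (fun n : ℕ => ({p : ℕ | p ≤ n ∧ p.Prime ∧ Odd p ∧ ω ∈ S (Q b p)}.ncard : ℝ) / Real.log n)
        atTop (𝓝 0) := by
      have h8 : Tendsto (fun n : ℕ => ({p : ℕ | p.Prime ∧ Odd p ∧ ω ∈ S (Q b p)}.ncard : ℝ) / Real.log n)
          atTop (𝓝 0) := tendsto_const_nhds.div_atTop Pool.Agent.U310.Mers.logNat
      refine squeeze_zero (fun n => div_nonneg (Nat.cast_nonneg _) (Real.log_natCast_nonneg n)) (fun n => ?_) h8
      apply div_le_div_of_nonneg_right _ (Real.log_natCast_nonneg n)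
      have h10 : {p : ℕ | p ≤ n ∧ p.Prime ∧ Odd p ∧ ω ∈ S (Q b p)} ⊆ {p : ℕ | p.Prime ∧ Odd p ∧ ω ∈ S (Q b p)} :=
        fun p hp => hp.2
      exact_mod_cast Set.ncard_le_ncard h10 hfin
    have h9 := tendsto_nhds_unique h6 h7
    have hlb : 0 < Real.log b := Real.log_pos (by exact_mod_cast (by omega : 1 < b))
    have : 0 < θ * Real.exp Real.eulerMascheroniConstant / Real.log b := by positivity
    linarith
  · rw [ae_all_iff]
    intro b
    rw [ae_all_iff]
    intro c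
    by_cases hbc : 2 ≤ b ∧ 2 ≤ c
    · obtain ⟨hb, hc⟩ := hbc
      have hne2 : ∀ᶠ p in atTop, Pool.Agent.U310.Mers.DP b (-1) p ≠ Pool.Agent.U310.Mers.DP c 1 p := by
        by_cases h : b = c
        · rw [h]
          exact ne_same c hc
        · exact ne_of_rate (expo_minus b hb) (expo_plus c hc) (log_ne hb hc h)
      have g2 := Pool.Agent.U310.Mers.gtwo hM.adapted (expo_minus b hb) (expo_plus c hc) z θ hθ hz hprof hne2
      by_cases h : b = c
      · filter_upwards [g2] with ω hω _ _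
        refine ⟨fun h1 => absurd h h1, hω.subset ?_⟩
        rintro p ⟨hp1, hp2, hp3⟩
        rw [Q_eq b hb p hp1] at hp2
        rw [R_eq c hc p] at hp3
        exact ⟨hp2, hp3⟩
      · have g1 := Pool.Agent.U310.Mers.gtwo hM.adapted (expo_minus b hb) (expo_minus c hc) z θ hθ hz hprof
          (ne_of_rate (expo_minus b hb) (expo_minus c hc) (log_ne hb hc h))
        filter_upwards [g1, g2] with ω hω1 hω2 _ _
        refine ⟨fun _ => hω1.subset ?_, hω2.subset ?_⟩
        · rintro p ⟨hp1, hp2, hp3⟩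
          rw [Q_eq b hb p hp1] at hp2
          rw [Q_eq c hc p hp1] at hp3
          exact ⟨hp2, hp3⟩
        · rintro p ⟨hp1, hp2, hp3⟩
          rw [Q_eq b hb p hp1] at hp2
          rw [R_eq c hc p] at hp3
          exact ⟨hp2, hp3⟩
    · exact Eventually.of_forall fun ω h1 h2 => absurd ⟨h1, h2⟩ hbc

end Pool.Agent.Results.MP_ce8d0c_nt.RandomSieveModels
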